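import Mathlib

set_option autoImplicit false

namespace Pool.Agent.Results.MP_2f3180_ag.Q1

open MvPowerSeries

/-- The power sum p_k in countably many variables. -/
noncomputable def pw (k : ℕ) : MvPowerSeries ℕ ℝ :=
  fun α => by classical exact if ∃ i, α = Finsupp.single i k then 1 else 0

/-- The monomial symmetric function of a partition. -/
noncomputable def mon {N : ℕ} (l : Nat.Partition N) : MvPowerSeries ℕ ℝ :=
  fun α => if α.support.val.map α = l.parts then 1 else 0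

def NN (A : MvPowerSeries ℕ ℝ) : Prop := ∀ α, 0 ≤ coeff α A

theorem coeff_pw (k : ℕ) (α : ℕ →₀ ℕ) :
    coeff α (pw k) = by classical exact if ∃ i, α = Finsupp.single i k then 1 else 0 := rfl

theorem pw_nn (k : ℕ) : NN (pw k) := fun α => by
  rw [coeff_pw]; split_ifs <;> norm_num

theorem pw_pos (k i : ℕ) : 0 < coeff (Finsupp.single i k) (pw k) := by
  rw [coeff_pw, if_pos ⟨i, rfl⟩]; norm_num

theorem NN.mul {A B : MvPowerSeries ℕ ℝ} (hA : NN A) (hB : NN B) : NN (A * B) := fun α => by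
  rw [coeff_mul]
  exact Finset.sum_nonneg fun p _ => mul_nonneg (hA _) (hB _)

theorem pos_mul {A B : MvPowerSeries ℕ ℝ} (hA : NN A) (hB : NN B) {β γ : ℕ →₀ ℕ}
    (h1 : 0 < coeff β A) (h2 : 0 < coeff γ B) : 0 < coeff (β + γ) (A * B) := by
  rw [coeff_mul]
  exact Finset.sum_pos' (fun p _ => mul_nonneg (hA _) (hB _))
    ⟨(β, γ), by simp, mul_pos h1 h2⟩

noncomputable def al : ℕ → (ℕ →₀ ℕ)
  | 0 => Finsupp.single 0 4 + Finsupp.single 1 4
  | k + 1 => Finsupp.single (k + 2) 2 + al k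

theorem al_le (k : ℕ) : ∀ i, al k i ≤ 4 ∧ (k + 2 ≤ i → al k i = 0) := by
  induction k with
  | zero =>
    intro i
    simp only [al, Finsupp.add_apply, Finsupp.single_apply]
    split_ifs <;> omega
  | succ k ih =>
    intro i
    have := ih i
    simp only [al, Finsupp.add_apply, Finsupp.single_apply]
    split_ifs <;> omega

theorem main_pos (k : ℕ) : NN (pw 2 ^ k * (pw 4 * pw 4)) ∧
    0 < coeff (al k) (pw 2 ^ k * (pw 4 * pw 4)) := by
  induction k with
  | zero =>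
    rw [pow_zero, one_mul]
    exact ⟨(pw_nn 4).mul (pw_nn 4), pos_mul (pw_nn 4) (pw_nn 4) (pw_pos 4 0) (pw_pos 4 1)⟩
  | succ k ih =>
    rw [pow_succ', mul_assoc]
    exact ⟨(pw_nn 2).mul ih.1, pos_mul (pw_nn 2) ih.1 (pw_pos 2 (k + 2)) ih.2⟩

theorem six_zero (A : MvPowerSeries ℕ ℝ) (k : ℕ) : coeff (al k) (A * pw 6) = 0 := by
  rw [coeff_mul]
  refine Finset.sum_eq_zero fun p hp => ?_
  rw [coeff_pw, if_neg, mul_zero]
  rintro ⟨i, hi⟩
  have h := congrArg (fun z : ℕ →₀ ℕ => z i) (Finset.HasAntidiagonal.mem_antidiagonal.1 hp)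
  simp only [Finsupp.add_apply, hi, Finsupp.single_eq_same] at h
  have := (al_le k i).1
  omega

theorem posit (x : ℕ → ℝ) (hs : Summable fun i => x i ^ 2) (h1 : ∑' i, x i ^ 2 = 1) :
    0 < 2 * (∑' i, x i ^ 2) * (∑' i, x i ^ 6) - (∑' i, x i ^ 4) ^ 2 := by
  have b : ∀ i, x i ^ 2 ≤ 1 := fun i => h1 ▸ hs.le_tsum i fun j _ => sq_nonneg _
  have s4 : Summable fun i => x i ^ 4 :=
    Summable.of_nonneg_of_le (fun i => by positivity)
      (fun i => by nlinarith [b i, sq_nonneg (x i)]) hs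
  have s6 : Summable fun i => x i ^ 6 :=
    Summable.of_nonneg_of_le (fun i => by positivity)
      (fun i => by
        have : 0 ≤ x i ^ 4 := by positivity
        nlinarith [b i]) s4
  set t := ∑' i, x i ^ 4 with ht
  have k1 : HasSum (fun i => x i ^ 6 - 2 * t * x i ^ 4 + t ^ 2 * x i ^ 2)
      ((∑' i, x i ^ 6) - 2 * t * t + t ^ 2 * 1) :=
    (s6.hasSum.sub (s4.hasSum.mul_left _)).add ((h1 ▸ hs.hasSum).mul_left _)
  have k2 : 0 ≤ (∑' i, x i ^ 6) - 2 * t * t + t ^ 2 * 1 :=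
    k1.nonneg fun i => by
      have : x i ^ 6 - 2 * t * x i ^ 4 + t ^ 2 * x i ^ 2 = x i ^ 2 * (x i ^ 2 - t) ^ 2 := by ring
      rw [this]; positivity
  have k3 : 0 < ∑' i, x i ^ 6 := by
    obtain ⟨i, hi⟩ : ∃ i, x i ≠ 0 := by
      by_contra hc
      push Not at hc
      simp [hc] at h1
    exact s6.tsum_pos (fun i => by positivity) i (by positivity)
  rw [h1]; nlinarith

theorem result : ∃ (d : ℕ) (g : MvPolynomial ℕ ℝ),
    g.IsWeightedHomogeneous (fun j => 2 * (j + 1)) (2 * d) ∧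
    (∀ x : ℕ → ℝ, (Summable fun i => x i ^ 2) → ∑' i, x i ^ 2 = 1 →
      0 < MvPolynomial.eval (fun j => ∑' i, x i ^ (2 * (j + 1))) g) ∧
    ∀ k : ℕ, ¬ ∃ c : Nat.Partition (2 * d + 2 * k) → ℝ, (∀ l, 0 ≤ c l) ∧
      pw 2 ^ k * MvPolynomial.aeval (fun j => pw (2 * (j + 1))) g =
        ∑ l ∈ Finset.univ.filter (fun l : Nat.Partition (2 * d + 2 * k) => ∀ a ∈ l.parts, Even a),
          c l • mon l := by
  refine ⟨4, MvPolynomial.C 2 * (MvPolynomial.X 0 * MvPolynomial.X 2) -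
    MvPolynomial.X 1 * MvPolynomial.X 1, ?_, fun x hs h1 => ?_, fun k ⟨c, hc, he⟩ => ?_⟩
  · have a := fun j : ℕ => MvPolynomial.isWeightedHomogeneous_X ℝ (fun j : ℕ => 2 * (j + 1)) j
    have c := MvPolynomial.isWeightedHomogeneous_C (R := ℝ) (fun j : ℕ => 2 * (j + 1)) 2
    exact (MvPolynomial.weightedHomogeneousSubmodule ℝ (fun j : ℕ => 2 * (j + 1)) (2 * 4)).sub_mem
      (c.mul ((a 0).mul (a 2))) ((a 1).mul (a 1))
  · have := posit x hs h1
    simp only [map_sub, map_mul, MvPolynomial.eval_C, MvPolynomial.eval_X]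
    norm_num
    linarith
  · have e := congrArg (coeff (al k)) he
    have r : 0 ≤ coeff (al k) (∑ l ∈ Finset.univ.filter
        (fun l : Nat.Partition (2 * 4 + 2 * k) => ∀ a ∈ l.parts, Even a), c l • mon l) := by
      rw [map_sum]
      refine Finset.sum_nonneg fun l _ => ?_
      rw [map_smul, smul_eq_mul]
      refine mul_nonneg (hc l) ?_
      show 0 ≤ (if _ then (1 : ℝ) else 0)
      split_ifs <;> norm_num
    rw [← e] at r
    have f : pw 2 ^ k * MvPolynomial.aeval (fun j => pw (2 * (j + 1)))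
        (MvPolynomial.C 2 * (MvPolynomial.X 0 * MvPolynomial.X 2) -
          MvPolynomial.X 1 * MvPolynomial.X 1 : MvPolynomial ℕ ℝ) =
        (pw 2 ^ k * algebraMap ℝ _ 2 * pw 2) * pw 6 - pw 2 ^ k * (pw 4 * pw 4) := by
      simp only [map_sub, map_mul, MvPolynomial.aeval_C, MvPolynomial.aeval_X]
      norm_num
      ring
    rw [f, map_sub, six_zero] at r
    linarith [(main_pos k).2]

end Pool.Agent.Results.MP_2f3180_ag.Q1
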